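import Pool.Agent.Helper20.Griff.Goals

/-!
The value of `s_{(k, 0, …, 0)} = c_k` on the Chern forms of a `k × k` matrix.
-/

open MvPolynomial Pool.Agent.Helper94.Griff Pool.Agent.Helper20.Griff

namespace Pool.Agent.Helper94.GriffDis

lemma chern_top {k : ℕ} {R : Type*} [CommRing R] (M : Matrix (Fin k) (Fin k) R) :
    chern M k = M.det := by
  unfold chern
  have h := Polynomial.coeff_det_X_add_C_card M (1 : Matrix (Fin k) (Fin k) R)
  rw [Fintype.card_fin, Matrix.map_one _ (map_zero _) (map_one _), add_comm] at h
  exact h

theorem stmtSchur : StmtSchur := by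
  intro k hk R _ _ M
  have h0 : ∀ j : Fin k, (((if (j : ℕ) = 0 then Fin.last k else 0 : Fin (k + 1)) : ℕ)) =
      if (j : ℕ) = 0 then k else 0 := by
    intro j
    split_ifs <;> simp
  constructor
  · unfold partitions
    rw [Finset.mem_filter]
    refine ⟨Finset.mem_univ _, ?_, ?_⟩
    · intro a b hab
      have hab' : (a : ℕ) ≤ b := hab
      by_cases hb : (b : ℕ) = 0
      · have ha : (a : ℕ) = 0 := by omega
        simp only [ha, hb, if_true, le_refl]
      · simp only [hb, if_false]
        exact Fin.zero_le _
    · simp only [h0]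
      rw [Finset.sum_eq_single (⟨0, hk⟩ : Fin k)]
      · simp
      · intro b _ hb
        have : (b : ℕ) ≠ 0 := fun h => hb (Fin.ext h)
        simp [this]
      · intro h
        exact absurd (Finset.mem_univ _) h
  · have h1 : schur k (fun j : Fin k => if (j : ℕ) = 0 then Fin.last k else 0) =
        X ⟨k - 1, by omega⟩ := by
      unfold schur
      rw [Matrix.det_of_isUpperTriangular]
      · rw [Finset.prod_eq_single (⟨0, hk⟩ : Fin k)]
        · rw [Matrix.of_apply, h0]
          unfold cvar
          have e1 : ((if ((⟨0, hk⟩ : Fin k) : ℕ) = 0 then k else 0 : ℕ) : ℤ) -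
              (((⟨0, hk⟩ : Fin k) : ℕ) : ℤ) + (((⟨0, hk⟩ : Fin k) : ℕ) : ℤ) = k := by
            simp
          rw [e1]
          have e2 : ¬ ((k : ℤ) = 0) := by omega
          have e3 : 0 < (k : ℤ) ∧ (k : ℤ) ≤ (k : ℤ) := ⟨by omega, le_refl _⟩
          rw [if_neg e2, dif_pos e3]
          congr 1
          apply Fin.ext
          simp only
          omega
        · intro b _ hb
          have hb' : (b : ℕ) ≠ 0 := fun h => hb (Fin.ext h)
          rw [Matrix.of_apply, h0, if_neg hb']
          unfold cvar
          rw [if_pos (by simp)]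
        · intro h
          exact absurd (Finset.mem_univ _) h
      · intro i j hij
        have hij' : (j : ℕ) < i := hij
        have hi : (i : ℕ) ≠ 0 := by omega
        rw [Matrix.of_apply, h0, if_neg hi]
        unfold cvar
        rw [if_neg (by omega), dif_neg (by omega)]
    rw [h1, aeval_X]
    have h2 : (((⟨k - 1, by omega⟩ : Fin k) : ℕ)) + 1 = k := by
      simp only
      omega
    rw [h2]
    exact chern_top M

end Pool.Agent.Helper94.GriffDis
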