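import Pool.Agent.Helper20.Griff.Goals

/-!
Wirtinger calculus and the curvature of the metric `G⁻¹`, `G = ∑ φ_a φ̄_b Γ_ab`.
-/

open Matrix Pool.Agent.Helper94.Griff Pool.Agent.Helper20.Griff
open scoped ContDiff

namespace Pool.Agent.Helper94.GriffDis

/-- the Wirtinger derivatives: `wd s j` is `∂/∂z_j` for `s = -I` and `∂/∂z̄_j` for `s = I` -/
noncomputable def wd {n : ℕ} (s : ℂ) (j : Fin n) (f : (Fin n → ℂ) → ℂ) (z : Fin n → ℂ) : ℂ :=
  (1 / 2) * (fderiv ℝ f z (Pi.single j 1) + s * fderiv ℝ f z (Pi.single j Complex.I))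

lemma dz_eq {n : ℕ} (j : Fin n) (f : (Fin n → ℂ) → ℂ) (z : Fin n → ℂ) :
    dz j f z = wd (-Complex.I) j f z := by
  unfold dz wd
  ring

lemma dzbar_eq {n : ℕ} (j : Fin n) (f : (Fin n → ℂ) → ℂ) (z : Fin n → ℂ) :
    dzbar j f z = wd Complex.I j f z := rfl

section

variable {n : ℕ} (s : ℂ) (j : Fin n) {z : Fin n → ℂ}

lemma wd_mul {f g : (Fin n → ℂ) → ℂ} (hf : DifferentiableAt ℝ f z)
    (hg : DifferentiableAt ℝ g z) :
    wd s j (fun u => f u * g u) z = wd s j f z * g z + f z * wd s j g z := by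
  unfold wd
  rw [fderiv_fun_mul hf hg]
  simp only [_root_.add_apply, _root_.smul_apply, smul_eq_mul]
  ring

lemma wd_sum {ι : Type*} (t : Finset ι) {f : ι → (Fin n → ℂ) → ℂ}
    (hf : ∀ i ∈ t, DifferentiableAt ℝ (f i) z) :
    wd s j (fun u => ∑ i ∈ t, f i u) z = ∑ i ∈ t, wd s j (f i) z := by
  unfold wd
  rw [fderiv_fun_sum hf]
  simp only [_root_.sum_apply, Finset.mul_sum, ← Finset.sum_add_distrib]

lemma wd_const (c : ℂ) : wd s j (fun _ => c) z = 0 := by
  unfold wd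
  rw [fderiv_fun_const]
  simp

lemma wd_mul_const {f : (Fin n → ℂ) → ℂ} (hf : DifferentiableAt ℝ f z) (c : ℂ) :
    wd s j (fun u => f u * c) z = wd s j f z * c := by
  rw [wd_mul s j hf (differentiableAt_const c), wd_const, mul_zero, add_zero]

lemma wd_neg {f : (Fin n → ℂ) → ℂ} : wd s j (fun u => - f u) z = - wd s j f z := by
  unfold wd
  rw [fderiv_fun_neg]
  simp only [_root_.neg_apply]
  ring

lemma wd_congr {f g : (Fin n → ℂ) → ℂ} (h : f =ᶠ[nhds z] g) : wd s j f z = wd s j g z := by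
  unfold wd
  rw [h.fderiv_eq]

end

section

variable {n : ℕ} (j : Fin n) {z : Fin n → ℂ}

lemma single_I (j : Fin n) : (Pi.single j Complex.I : Fin n → ℂ) = Complex.I • Pi.single j 1 := by
  rw [← Pi.single_smul, smul_eq_mul, mul_one]

lemma fderiv_real {f : (Fin n → ℂ) → ℂ} (hf : DifferentiableAt ℂ f z) (v : Fin n → ℂ) :
    fderiv ℝ f z v = fderiv ℂ f z v := by
  have := (hf.hasFDerivAt.restrictScalars ℝ).fderiv
  rw [this]
  rfl

lemma diffR {f : (Fin n → ℂ) → ℂ} (hf : DifferentiableAt ℂ f z) : DifferentiableAt ℝ f z :=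
  hf.restrictScalars ℝ

lemma diff_star {f : (Fin n → ℂ) → ℂ} (hf : DifferentiableAt ℂ f z) :
    DifferentiableAt ℝ (fun u => star (f u)) z :=
  (diffR hf).star

lemma fderiv_star_real {f : (Fin n → ℂ) → ℂ} (hf : DifferentiableAt ℂ f z) (v : Fin n → ℂ) :
    fderiv ℝ (fun u => star (f u)) z v = star (fderiv ℂ f z v) := by
  have h := (hf.hasFDerivAt.restrictScalars ℝ).star.fderiv
  rw [h]
  rfl

lemma wd_holo_dz {f : (Fin n → ℂ) → ℂ} (hf : DifferentiableAt ℂ f z) :
    wd (-Complex.I) j f z = fderiv ℂ f z (Pi.single j 1) := by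
  unfold wd
  rw [fderiv_real hf, fderiv_real hf, single_I, map_smul, smul_eq_mul]
  have : Complex.I * Complex.I = -1 := Complex.I_mul_I
  linear_combination (-(1 / 2) * (fderiv ℂ f z (Pi.single j 1))) * this

lemma wd_holo_dzbar {f : (Fin n → ℂ) → ℂ} (hf : DifferentiableAt ℂ f z) :
    wd Complex.I j f z = 0 := by
  unfold wd
  rw [fderiv_real hf, fderiv_real hf, single_I, map_smul, smul_eq_mul]
  have : Complex.I * Complex.I = -1 := Complex.I_mul_I
  linear_combination ((1 / 2) * (fderiv ℂ f z (Pi.single j 1))) * this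

lemma wd_star_dz {f : (Fin n → ℂ) → ℂ} (hf : DifferentiableAt ℂ f z) :
    wd (-Complex.I) j (fun u => star (f u)) z = 0 := by
  unfold wd
  rw [fderiv_star_real hf, fderiv_star_real hf, single_I, map_smul, smul_eq_mul, star_mul',
    Complex.star_def, Complex.conj_I]
  have : Complex.I * Complex.I = -1 := Complex.I_mul_I
  linear_combination ((1 / 2) * (starRingEnd ℂ (fderiv ℂ f z (Pi.single j 1)))) * this

lemma wd_star_dzbar {f : (Fin n → ℂ) → ℂ} (hf : DifferentiableAt ℂ f z) :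
    wd Complex.I j (fun u => star (f u)) z = star (fderiv ℂ f z (Pi.single j 1)) := by
  unfold wd
  rw [fderiv_star_real hf, fderiv_star_real hf, single_I, map_smul, smul_eq_mul, star_mul',
    Complex.star_def, Complex.conj_I]
  have : Complex.I * Complex.I = -1 := Complex.I_mul_I
  linear_combination (-(1 / 2) * (starRingEnd ℂ (fderiv ℂ f z (Pi.single j 1)))) * this

end

/-- entrywise Wirtinger derivative of a matrix -/
noncomputable def wdM {n r : ℕ} (s : ℂ) (j : Fin n) (F : (Fin n → ℂ) → Matrix (Fin r) (Fin r) ℂ)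
    (z : Fin n → ℂ) : Matrix (Fin r) (Fin r) ℂ :=
  Matrix.of fun a b => wd s j (fun u => F u a b) z

/-- entrywise real differentiability -/
def DM {n r : ℕ} (F : (Fin n → ℂ) → Matrix (Fin r) (Fin r) ℂ) (z : Fin n → ℂ) : Prop :=
  ∀ a b, DifferentiableAt ℝ (fun u => F u a b) z

section

variable {n r : ℕ} (s : ℂ) (j : Fin n) {z : Fin n → ℂ}

lemma wdM_mul {F G : (Fin n → ℂ) → Matrix (Fin r) (Fin r) ℂ} (hF : DM F z) (hG : DM G z) :
    wdM s j (fun u => F u * G u) z = wdM s j F z * G z + F z * wdM s j G z := by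
  ext a b
  rw [Matrix.add_apply, Matrix.mul_apply, Matrix.mul_apply]
  unfold wdM
  rw [Matrix.of_apply]
  simp only [Matrix.mul_apply]
  rw [wd_sum s j _ fun i _ => (hF a i).fun_mul (hG i b), ← Finset.sum_add_distrib]
  refine Finset.sum_congr rfl fun i _ => ?_
  rw [wd_mul s j (hF a i) (hG i b)]
  rfl

lemma wdM_congr {F G : (Fin n → ℂ) → Matrix (Fin r) (Fin r) ℂ} (h : F =ᶠ[nhds z] G) :
    wdM s j F z = wdM s j G z := by
  ext a b
  exact wd_congr s j (h.mono fun u hu => by simp only [hu])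

lemma wdM_neg {F : (Fin n → ℂ) → Matrix (Fin r) (Fin r) ℂ} :
    wdM s j (fun u => - F u) z = - wdM s j F z := by
  ext a b
  exact wd_neg s j

lemma diff_prod {ι : Type*} (t : Finset ι) {f : ι → (Fin n → ℂ) → ℂ}
    (hf : ∀ i ∈ t, DifferentiableAt ℝ (f i) z) :
    DifferentiableAt ℝ (fun u => ∏ i ∈ t, f i u) z := by
  classical
  induction t using Finset.induction_on with
  | empty => simp only [Finset.prod_empty]; exact differentiableAt_const _
  | insert a t ha ih =>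
    simp only [Finset.prod_insert ha]
    exact (hf a (Finset.mem_insert_self _ _)).fun_mul
      (ih fun i hi => hf i (Finset.mem_insert_of_mem hi))

lemma det_diff {F : (Fin n → ℂ) → Matrix (Fin r) (Fin r) ℂ} (hF : DM F z) :
    DifferentiableAt ℝ (fun u => (F u).det) z := by
  simp only [Matrix.det_apply']
  refine DifferentiableAt.fun_sum fun σ _ => ?_
  refine DifferentiableAt.const_mul ?_ _
  exact diff_prod _ fun i _ => hF (σ i) i

lemma DM_inv {F : (Fin n → ℂ) → Matrix (Fin r) (Fin r) ℂ} (hF : DM F z)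
    (hdet : (F z).det ≠ 0) : DM (fun u => (F u)⁻¹) z := by
  intro a b
  simp only [Matrix.inv_def, Matrix.smul_apply, Ring.inverse_eq_inv', smul_eq_mul]
  refine DifferentiableAt.fun_mul ((det_diff hF).inv hdet) ?_
  simp only [Matrix.adjugate_apply]
  apply det_diff
  intro c d
  by_cases hc : c = b
  · subst hc
    simp only [Matrix.updateRow_self]
    exact differentiableAt_const _
  · simp only [Matrix.updateRow_ne hc]
    exact hF c d

lemma wdM_inv {F : (Fin n → ℂ) → Matrix (Fin r) (Fin r) ℂ} (hF : DM F z)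
    (hdet : ∀ᶠ u in nhds z, IsUnit (F u).det) :
    wdM s j (fun u => (F u)⁻¹) z = - ((F z)⁻¹ * wdM s j F z * (F z)⁻¹) := by
  have h0 : IsUnit (F z).det := hdet.self_of_nhds
  have h1 := wdM_mul s j hF (DM_inv hF h0.ne_zero)
  have h2 : wdM s j (fun u => F u * (F u)⁻¹) z = 0 := by
    rw [wdM_congr s j (hdet.mono fun u hu => Matrix.mul_nonsing_inv _ hu)]
    ext a b
    exact wd_const s j _
  rw [h2] at h1
  have h3 : F z * wdM s j (fun u => (F u)⁻¹) z = - (wdM s j F z * (F z)⁻¹) :=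
    (neg_eq_of_add_eq_zero_right h1.symm).symm
  calc wdM s j (fun u => (F u)⁻¹) z =
      ((F z)⁻¹ * F z) * wdM s j (fun u => (F u)⁻¹) z := by
        rw [Matrix.nonsing_inv_mul _ h0, Matrix.one_mul]
    _ = _ := by
        rw [Matrix.mul_assoc, h3, Matrix.mul_neg, Matrix.mul_assoc]

end

section Sesq

variable {n r : ℕ} (j : Fin n) {z : Fin n → ℂ} {μ : Type} [Fintype μ]
  (Γ : μ → μ → Matrix (Fin r) (Fin r) ℂ)

lemma sesq_apply (φ ψ : μ → ℂ) (c d : Fin r) :
    sesq Γ φ ψ c d = ∑ a, ∑ b, φ a * star (ψ b) * Γ a b c d := by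
  unfold sesq
  simp only [Matrix.sum_apply, Matrix.smul_apply, smul_eq_mul]

omit [Fintype μ] in
lemma comp_diff {φ : (Fin n → ℂ) → μ → ℂ} (hφ : DifferentiableAt ℂ φ z) (a : μ) :
    DifferentiableAt ℂ (fun u => φ u a) z :=
  (differentiableAt_pi.1 hφ) a

omit [Fintype μ] in
lemma comp_fderiv {φ : (Fin n → ℂ) → μ → ℂ} (hφ : DifferentiableAt ℂ φ z) (a : μ)
    (v : Fin n → ℂ) : fderiv ℂ (fun u => φ u a) z v = fderiv ℂ φ z v a := by
  have h := (hasFDerivAt_pi'.1 hφ.hasFDerivAt) a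
  rw [h.fderiv]
  rfl

lemma DM_sesq {φ ψ : (Fin n → ℂ) → μ → ℂ} (hφ : DifferentiableAt ℂ φ z)
    (hψ : DifferentiableAt ℂ ψ z) : DM (fun u => sesq Γ (φ u) (ψ u)) z := by
  intro c d
  simp only [sesq_apply]
  refine DifferentiableAt.fun_sum fun a _ => DifferentiableAt.fun_sum fun b _ => ?_
  exact ((diffR (comp_diff hφ a)).fun_mul (diff_star (comp_diff hψ b))).mul_const _

lemma wdM_sesq (s : ℂ) {φ ψ : (Fin n → ℂ) → μ → ℂ} (hφ : DifferentiableAt ℂ φ z)
    (hψ : DifferentiableAt ℂ ψ z) (c d : Fin r) :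
    wdM s j (fun u => sesq Γ (φ u) (ψ u)) z c d = ∑ a, ∑ b,
      (wd s j (fun u => φ u a) z * star (ψ z b) +
        φ z a * wd s j (fun u => star (ψ u b)) z) * Γ a b c d := by
  unfold wdM
  rw [Matrix.of_apply]
  simp only [sesq_apply]
  have h1 : ∀ a b, DifferentiableAt ℝ (fun u => φ u a * star (ψ u b) * Γ a b c d) z := fun a b =>
    ((diffR (comp_diff hφ a)).fun_mul (diff_star (comp_diff hψ b))).mul_const _
  rw [wd_sum s j _ fun a _ => DifferentiableAt.fun_sum fun b _ => h1 a b]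
  refine Finset.sum_congr rfl fun a _ => ?_
  rw [wd_sum s j _ fun b _ => h1 a b]
  refine Finset.sum_congr rfl fun b _ => ?_
  rw [wd_mul_const s j ((diffR (comp_diff hφ a)).fun_mul (diff_star (comp_diff hψ b))),
    wd_mul s j (diffR (comp_diff hφ a)) (diff_star (comp_diff hψ b))]

lemma wdM_sesq_dz {φ ψ : (Fin n → ℂ) → μ → ℂ} (hφ : DifferentiableAt ℂ φ z)
    (hψ : DifferentiableAt ℂ ψ z) :
    wdM (-Complex.I) j (fun u => sesq Γ (φ u) (ψ u)) z =
      sesq Γ (fderiv ℂ φ z (Pi.single j 1)) (ψ z) := by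
  ext c d
  rw [wdM_sesq j Γ _ hφ hψ, sesq_apply]
  refine Finset.sum_congr rfl fun a _ => Finset.sum_congr rfl fun b _ => ?_
  rw [wd_holo_dz j (comp_diff hφ a), wd_star_dz j (comp_diff hψ b), comp_fderiv hφ, mul_zero,
    add_zero]

lemma wdM_sesq_dzbar {φ ψ : (Fin n → ℂ) → μ → ℂ} (hφ : DifferentiableAt ℂ φ z)
    (hψ : DifferentiableAt ℂ ψ z) :
    wdM Complex.I j (fun u => sesq Γ (φ u) (ψ u)) z =
      sesq Γ (φ z) (fderiv ℂ ψ z (Pi.single j 1)) := by
  ext c d
  rw [wdM_sesq j Γ _ hφ hψ, sesq_apply]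
  refine Finset.sum_congr rfl fun a _ => Finset.sum_congr rfl fun b _ => ?_
  rw [wd_holo_dzbar j (comp_diff hφ a), wd_star_dzbar j (comp_diff hψ b), comp_fderiv hψ,
    zero_mul, zero_add]

end Sesq

/-- The curvature of `G⁻¹`. -/
theorem stmtCurv : StmtCurv := by
  intro n r μ _ Γ U hU φ hφ hdet w hw j l
  have hUn : ∀ u ∈ U, U ∈ nhds u := fun u hu => hU.mem_nhds hu
  have hφd : ∀ u ∈ U, DifferentiableAt ℂ φ u := fun u hu =>
    (hφ.contDiffAt (hUn u hu)).differentiableAt (by norm_num)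
  have hψd : ∀ u ∈ U, DifferentiableAt ℂ (fun v => fderiv ℂ φ v (Pi.single j 1)) u := by
    intro u hu
    have h1 : ContDiffAt ℂ 1 (fderiv ℂ φ) u :=
      (hφ.contDiffAt (hUn u hu)).fderiv_right (by norm_num)
    exact (h1.differentiableAt (by norm_num)).clm_apply (differentiableAt_const _)
  set G : (Fin n → ℂ) → Matrix (Fin r) (Fin r) ℂ := fun z => sesq Γ (φ z) (φ z) with hG
  have hGdet : ∀ u ∈ U, ∀ᶠ v in nhds u, IsUnit (G v).det := fun u hu =>
    Filter.mem_of_superset (hUn u hu) hdet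
  have hGD : ∀ u ∈ U, DM G u := fun u hu => DM_sesq Γ (hφd u hu) (hφd u hu)
  have hcurv : curvature (fun z => (G z)⁻¹) w j l = - wdM Complex.I l (fun u =>
      ((G u)⁻¹)⁻¹ * wdM (-Complex.I) j (fun z => (G z)⁻¹) u) w := by
    ext a b
    rw [Matrix.neg_apply]
    unfold curvature wdM
    rw [Matrix.of_apply, Matrix.of_apply, dzbar_eq]
    simp only [dz_eq]
  have hnear : (fun u => ((G u)⁻¹)⁻¹ * wdM (-Complex.I) j (fun z => (G z)⁻¹) u) =ᶠ[nhds w]
      fun u => - (sesq Γ (fderiv ℂ φ u (Pi.single j 1)) (φ u) * (G u)⁻¹) := by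
    filter_upwards [hUn w hw] with u hu
    rw [wdM_inv _ _ (hGD u hu) (hGdet u hu), Matrix.nonsing_inv_nonsing_inv _ (hdet u hu),
      wdM_sesq_dz j Γ (hφd u hu) (hφd u hu), Matrix.mul_neg, ← Matrix.mul_assoc,
      ← Matrix.mul_assoc, Matrix.mul_nonsing_inv _ (hdet u hu), Matrix.one_mul]
  rw [hcurv, wdM_congr _ _ hnear, wdM_neg, neg_neg,
    wdM_mul _ _ (DM_sesq Γ (hψd w hw) (hφd w hw))
      (DM_inv (hGD w hw) (hdet w hw).ne_zero),
    wdM_inv _ _ (hGD w hw) (hGdet w hw), wdM_sesq_dzbar l Γ (hψd w hw) (hφd w hw),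
    wdM_sesq_dzbar l Γ (hφd w hw) (hφd w hw), Matrix.sub_mul, sub_eq_add_neg, Matrix.mul_neg]
  simp only [Matrix.mul_assoc, hG]

end Pool.Agent.Helper94.GriffDis
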